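import Pool.Agent.Lib.QU74.Syz

/-!
# Projective modules over `K[1/r]`, `K` a regular local ring, are stably free
-/

set_option autoImplicit false
set_option linter.unusedSectionVars false

namespace Pool.Agent.QU74

open IsLocalRing Pointwise

universe u v w

section split

variable {A : Type u} [CommRing A] {P : Type v} {F : Type w} [AddCommGroup P] [Module A P]
    [AddCommGroup F] [Module A F]

/-- A surjection with a section splits. -/
noncomputable def splitEquiv (π : F →ₗ[A] P) (s : P →ₗ[A] F) (hs : ∀ p, π (s p) = p) :
    F ≃ₗ[A] P × LinearMap.ker π where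
  toFun v := (π v, ⟨v - s (π v), by rw [LinearMap.mem_ker, map_sub, hs, sub_self]⟩)
  map_add' v w := by
    refine Prod.ext (map_add π v w) (Subtype.ext ?_)
    change v + w - s (π (v + w)) = v - s (π v) + (w - s (π w))
    rw [map_add, map_add]
    abel
  map_smul' c v := by
    refine Prod.ext (map_smul π c v) (Subtype.ext ?_)
    change c • v - s (π (c • v)) = c • (v - s (π v))
    rw [map_smul, map_smul, smul_sub]
  invFun p := s p.1 + p.2
  left_inv v := by
    change s (π v) + (v - s (π v)) = v
    abel
  right_inv p := by
    obtain ⟨p, ⟨z, hz⟩⟩ := p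
    have h1 : π (s p + z) = p := by rw [map_add, hs, LinearMap.mem_ker.1 hz, add_zero]
    refine Prod.ext h1 (Subtype.ext ?_)
    change s p + z - s (π (s p + z)) = z
    rw [h1]
    abel

/-- If the kernel of a surjection from a free module onto a projective module is stably free, so
is the projective module. -/
theorem stab_of_ker [Module.Projective A P] {k : ℕ} (π : (Fin k → A) →ₗ[A] P)
    (hπ : Function.Surjective π)
    (h : ∃ s : ℕ, Module.Free A (LinearMap.ker π × (Fin s → A))) :
    ∃ s : ℕ, Module.Free A (P × (Fin s → A)) := by
  obtain ⟨s, hs⟩ := h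
  obtain ⟨σ, hσ⟩ := Module.projective_lifting_property π LinearMap.id hπ
  have hσ' : ∀ p, π (σ p) = p := fun p => LinearMap.congr_fun hσ p
  have e1 := splitEquiv π σ hσ'
  have hfin : Module.Finite A (LinearMap.ker π) :=
    Module.Finite.of_surjective ((LinearMap.snd A P (LinearMap.ker π)) ∘ₗ e1.toLinearMap)
      (fun z => ⟨e1.symm (0, z), by
        change (e1 (e1.symm (0, z))).2 = z
        rw [LinearEquiv.apply_symm_apply]⟩)
  rcases subsingleton_or_nontrivial A with hA | hA
  · have : Subsingleton (P × (Fin 0 → A)) := Module.subsingleton A _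
    exact ⟨0, Module.Free.of_subsingleton A _⟩
  · have b1 := Module.finBasis A (LinearMap.ker π × (Fin s → A))
    set t := Module.finrank A (LinearMap.ker π × (Fin s → A)) with ht
    have e2 : (LinearMap.ker π × (Fin s → A)) ≃ₗ[A] (Fin t → A) := b1.equivFun
    refine ⟨t, ?_⟩
    have e3 : ((Fin k → A) × (Fin s → A)) ≃ₗ[A] P × (Fin t → A) :=
      (e1.prodCongr (LinearEquiv.refl A (Fin s → A))).trans
        ((LinearEquiv.prodAssoc A P (LinearMap.ker π) (Fin s → A)).trans
          ((LinearEquiv.refl A P).prodCongr e2))
    exact Module.Free.of_equiv e3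

end split

section loc

variable {K : Type u} [CommRing K] [IsDomain K] [IsNoetherianRing K] {A : Type u} [CommRing A]
    [Algebra K A] {r : K} [IsLocalization.Away r A]

/-- Clearing denominators of a vector. -/
theorem exists_den {k : ℕ} (v : Fin k → A) :
    ∃ (j : ℕ) (w : Fin k → K), ∀ i, algebraMap K A (w i) = algebraMap K A r ^ j * v i := by
  obtain ⟨b, hb⟩ := IsLocalization.exist_integer_multiples_of_finite (Submonoid.powers r) v
  obtain ⟨⟨_, j, rfl⟩, hb⟩ : ∃ b : Submonoid.powers r,
      ∀ i, IsLocalization.IsInteger K ((b : K) • v i) := ⟨b, hb⟩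
  choose w hw using hb
  refine ⟨j, w, fun i => ?_⟩
  rw [hw, Algebra.smul_def, map_pow]

theorem isUnit_r : IsUnit (algebraMap K A r) := IsLocalization.Away.algebraMap_isUnit r

/-- Projective modules over `K[1/r]` with a lattice of finite free resolution are stably free. -/
theorem stab_of_syz (hr : r ≠ 0) : ∀ (n : ℕ) (P : Type u) [AddCommGroup P] [Module K P]
    [Module A P] [IsScalarTower K A P] (M : Submodule K P) [Module.Finite K M],
    Submodule.span A (M : Set P) = ⊤ → Syz K n M → Module.Projective A P →
    ∃ s : ℕ, Module.Free A (P × (Fin s → A)) := by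
  have hinj : Function.Injective (algebraMap K A) :=
    IsLocalization.injective A (powers_le_nonZeroDivisors_of_noZeroDivisors hr)
  have hAd : IsDomain A :=
    IsLocalization.isDomain_of_le_nonZeroDivisors A
      (powers_le_nonZeroDivisors_of_noZeroDivisors hr)
  intro n
  induction n with
  | zero =>
    intro P _ _ _ _ M _ hspan hfree _
    refine ⟨0, ?_⟩
    have hf : Module.Free K M := hfree
    have b := Module.Free.chooseBasis K M
    have h1 : LinearIndependent K (fun i => ((b i : M) : P)) :=
      b.linearIndependent.map' M.subtype (Submodule.ker_subtype M)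
    have h2 : LinearIndependent A (fun i => ((b i : M) : P)) :=
      LinearIndependent.localization A (Submonoid.powers r) h1
    have h3 : ⊤ ≤ Submodule.span A (Set.range fun i => ((b i : M) : P)) := by
      rw [← hspan, Submodule.span_le]
      intro m hm
      have h4 : (⟨m, hm⟩ : M) ∈ Submodule.span K (Set.range b) := by
        rw [b.span_eq]
        trivial
      have h5 : m ∈ Submodule.span K (Set.range fun i => ((b i : M) : P)) := by
        have h6 := Submodule.mem_map_of_mem (f := M.subtype) h4
        rw [Submodule.map_span, ← Set.range_comp] at h6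
        exact h6
      exact Submodule.span_le_restrictScalars K A _ h5
    have h4 : Module.Free A P := Module.Free.of_basis (Module.Basis.mk h2 h3)
    exact Module.Free.of_equiv (LinearEquiv.prodUnique (R := A) (M := P) (M₂ := Fin 0 → A)).symm
  | succ n ih =>
    intro P _ _ _ _ M _ hspan hsyz hproj
    obtain ⟨k, f, hf⟩ := Module.Finite.exists_fin' K M
    -- the surjection over `A`
    let π : (Fin k → A) →ₗ[A] P :=
      Fintype.linearCombination A (fun i => ((f (Pi.single i 1) : M) : P))
    have hπf : ∀ v : Fin k → K, π (fun i => algebraMap K A (v i)) = ((f v : M) : P) := by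
      intro v
      rw [Fintype.linearCombination_apply]
      have h1 : f v = ∑ i, v i • f (Pi.single i 1) := by
        conv_lhs => rw [pi_eq_sum_univ' v]
        rw [map_sum]
        refine Finset.sum_congr rfl fun i _ => ?_
        rw [map_smul]
      rw [h1, Submodule.coe_sum]
      refine Finset.sum_congr rfl fun i _ => ?_
      rw [algebraMap_smul, Submodule.coe_smul]
    have hπ : Function.Surjective π := by
      rw [← LinearMap.range_eq_top, ← top_le_iff, ← hspan, Submodule.span_le]
      intro m hm
      obtain ⟨v, hv⟩ := hf ⟨m, hm⟩
      exact ⟨_, by rw [hπf, hv]⟩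
    apply stab_of_ker π hπ
    -- the lattice in the kernel
    have hmem : ∀ v : LinearMap.ker f,
        (fun i => algebraMap K A ((v : Fin k → K) i)) ∈ LinearMap.ker π := by
      intro v
      rw [LinearMap.mem_ker, hπf, LinearMap.mem_ker.1 v.2]
      rfl
    let φ : LinearMap.ker f →ₗ[K] LinearMap.ker π :=
      { toFun := fun v => ⟨_, hmem v⟩
        map_add' := by
          intro v w
          apply Subtype.ext
          funext i
          exact map_add (algebraMap K A) _ _
        map_smul' := by
          intro c v
          apply Subtype.ext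
          funext i
          change algebraMap K A (c * (v : Fin k → K) i) = c • algebraMap K A ((v : Fin k → K) i)
          rw [map_mul, Algebra.smul_def] }
    have hφi : Function.Injective φ := by
      intro v w hvw
      apply Subtype.ext
      funext i
      have h1 := congrFun (congrArg Subtype.val hvw) i
      exact hinj h1
    have hn : IsNoetherian K (Fin k → K) := isNoetherian_of_isNoetherianRing_of_finite K _
    let e : LinearMap.ker f ≃ₗ[K] LinearMap.range φ := LinearEquiv.ofInjective φ hφi
    have hfin : Module.Finite K (LinearMap.range φ) :=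
      Module.Finite.of_surjective e.toLinearMap e.surjective
    obtain ⟨σ, hσ⟩ := Module.projective_lifting_property π LinearMap.id hπ
    have hσ' : ∀ p, π (σ p) = p := fun p => LinearMap.congr_fun hσ p
    have e1 := splitEquiv π σ hσ'
    have hproj' : Module.Projective A (LinearMap.ker π) := by
      refine Module.Projective.of_split
        (e1.symm.toLinearMap ∘ₗ LinearMap.inr A P (LinearMap.ker π))
        ((LinearMap.snd A P (LinearMap.ker π)) ∘ₗ e1.toLinearMap) ?_
      apply LinearMap.ext
      intro z
      change (e1 (e1.symm (0, z))).2 = z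
      rw [LinearEquiv.apply_symm_apply]
    refine ih (LinearMap.ker π) (LinearMap.range φ) ?_ (Syz.equiv n e (hsyz k f hf)) hproj'
    rw [← top_le_iff]
    intro p _
    obtain ⟨j, w, hw⟩ := exists_den (r := r) (p : Fin k → A)
    have h1 : f w = 0 := by
      apply Subtype.ext
      rw [← hπf, show (fun i => algebraMap K A (w i)) = algebraMap K A r ^ j • (p : Fin k → A) from
        funext fun i => hw i, map_smul, LinearMap.mem_ker.1 p.2, smul_zero]
      rfl
    have hu : IsUnit (algebraMap K A r ^ j) := (isUnit_r (r := r)).pow j
    obtain ⟨c, hc⟩ := hu.exists_left_inv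
    have h2 : p = c • φ ⟨w, h1⟩ := by
      apply Subtype.ext
      funext i
      change (p : Fin k → A) i = c * algebraMap K A (w i)
      rw [hw, ← mul_assoc, hc, one_mul]
    rw [h2]
    exact Submodule.smul_mem _ _ (Submodule.subset_span ⟨_, rfl⟩)

end loc

/-- **(a)** Projective modules over `K[1/r]` are stably free, `K` regular local. -/
theorem stably_free {K : Type u} [CommRing K] [IsRegularLocalRing K] {r : K} (hr : r ≠ 0)
    (A : Type u) [CommRing A] [Algebra K A] [IsLocalization.Away r A]
    (P : Type u) [AddCommGroup P] [Module A P] [Module.Finite A P] [Module.Projective A P] :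
    ∃ s : ℕ, Module.Free A (P × (Fin s → A)) := by
  obtain ⟨d, hd⟩ : ∃ d : ℕ, ringKrullDim K = (d : WithBot ℕ∞) :=
    ⟨_, (IsRegularLocalRing.spanFinrank_maximalIdeal (R := K)).symm⟩
  have hdom : IsDomain K := BEH5.Reg.isDomain_of_regular d K hd
  let _ : Module K P := Module.compHom P (algebraMap K A)
  have hst : IsScalarTower K A P := IsScalarTower.of_algebraMap_smul fun _ _ => rfl
  obtain ⟨k, p, hp⟩ := Submodule.fg_iff_exists_fin_generating_family.1
    (Module.Finite.fg_top (R := A) (M := P))
  have hfin : Module.Finite K (Submodule.span K (Set.range p)) :=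
    Module.Finite.iff_fg.2 (Submodule.fg_span (Set.finite_range p))
  refine stab_of_syz (r := r) hr d P (Submodule.span K (Set.range p)) ?_
    (syz_regular d K hd _) inferInstance
  rw [← top_le_iff, ← hp, Submodule.span_le]
  rintro _ ⟨i, rfl⟩
  exact Submodule.subset_span (Submodule.subset_span ⟨i, rfl⟩)

end Pool.Agent.QU74
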