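import Pool.Agent.Lib.QU74.Main
import Pool.Agent.Lib.QU62.A2
import Pool.Agent.Lib.QU62.A3
import Pool.Agent.Lib.QU94.A4E

/-!
# The step (cell B of the proof of Gabber's theorem in dimension three)
-/

set_option autoImplicit false
set_option linter.unusedSectionVars false

namespace Pool.Agent.QU62

open IsLocalRing

universe u w

variable {K R : Type u} [CommRing K] [IsDomain K] [IsNoetherianRing K] [IsLocalRing K]
    [CommRing R] [IsDomain R] [IsNoetherianRing R] [IsLocalRing R] [Algebra K R] {u x y : K}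

/-- The colength of an embedding of finite colength is finite. -/
theorem colen_ne_top (h : Ctx K R u x y) {M : Type w} [AddCommGroup M] [Module K M] {n : ℕ}
    (φ : M →ₗ[K] (Fin n → R)) (hφ : Dat u x y M n φ) : colen φ ≠ ⊤ := by
  have hf1 : Module.Finite K R := Module.Finite.of_surjective (Algebra.linearMap K R) h.surj
  refine finite_length h _ ?_ ?_
  · intro q
    obtain ⟨q, rfl⟩ := Submodule.Quotient.mk_surjective _ q
    refine ⟨1, ?_⟩
    rw [pow_one, ← Submodule.Quotient.mk_smul, QU74.u_smul h, Submodule.Quotient.mk_zero]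
  · intro q
    obtain ⟨q, rfl⟩ := Submodule.Quotient.mk_surjective _ q
    obtain ⟨N, h1, h2⟩ := hφ.cof q
    refine ⟨N, ?_, ?_⟩
    · rw [Submodule.mem_bot, ← Submodule.Quotient.mk_smul, Submodule.Quotient.mk_eq_zero]
      exact h1
    · rw [Submodule.mem_bot, ← Submodule.Quotient.mk_smul, Submodule.Quotient.mk_eq_zero]
      exact h2

/-- **B.** The step of the flag. -/
theorem step (h : Ctx K R u x y) (M : Type u) [AddCommGroup M] [Module K M]
    [Module.Finite K M] (hM : TF u M) {n : ℕ} (φ : M →ₗ[K] (Fin (n + 1) → R))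
    (hφ : Dat u x y M (n + 1) φ) (φ₀ : M →ₗ[K] R) (hφ₀ : ∀ m, φ₀ m = φ m 0)
    (ψ : M →ₗ[K] (Fin n → R)) (hψ : ∀ m i, ψ m i = φ m i.succ) :
    (∃ (n' : ℕ) (φ' : LinearMap.ker ψ →ₗ[K] (Fin n' → R)),
      Dat u x y (LinearMap.ker ψ) n' φ' ∧ colen φ' < colen φ) ∨
    (∃ φ' : LinearMap.ker ψ →ₗ[K] (Fin (n + 1) → R), Dat u x y (LinearMap.ker ψ) (n + 1) φ' ∧
      colen φ' ≤ colen φ ∧ (∀ m, φ' m 0 = φ₀ m) ∧
      ∀ (m : M) (hm : u • m ∈ LinearMap.ker ψ) (i : Fin n), φ' ⟨u • m, hm⟩ i.succ = ψ m i) := by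
  have hn : IsNoetherian K M := isNoetherian_of_isNoetherianRing_of_finite K M
  exact QU74.step_of h (fun A B _ _ _ _ α hα hc g => exists_ext h α hα hc g) M hM φ hφ
    (colen_ne_top h φ hφ) φ₀ hφ₀ ψ hψ (exists_phi h (LinearMap.ker ψ) (QU74.tf_ker h hM ψ))

end Pool.Agent.QU62
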