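import Pool.Agent.Lib.QU62.Base

/-!
# The core of the limit argument (cell C1 of Gabber's theorem in dimension three)
-/

set_option autoImplicit false
set_option linter.unusedSectionVars false

namespace Pool.Agent.QU74

open IsLocalRing Pool.Agent.QU62

universe u v w

variable {K R : Type u} [CommRing K] [IsDomain K] [IsNoetherianRing K] [IsLocalRing K]
    [CommRing R] [IsDomain R] [IsNoetherianRing R] [IsLocalRing R] [Algebra K R] {u x y : K}

section mods

variable {M : Type w} [AddCommGroup M] [Module K M]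

theorem reg_pow (hM : TF u M) : ∀ (k : ℕ) (m : M), u ^ k • m = 0 → m = 0 := by
  intro k
  induction k with
  | zero => intro m hm; rwa [pow_zero, one_smul] at hm
  | succ k ih =>
    intro m hm
    rw [pow_succ', mul_smul] at hm
    exact ih m (hM.reg _ hm)

theorem reg_pow_eq (hM : TF u M) {k : ℕ} {m m' : M} (hmm : u ^ k • m = u ^ k • m') : m = m' := by
  apply sub_eq_zero.1
  apply reg_pow hM k
  rw [smul_sub, hmm, sub_self]

theorem tf_pow (hM : TF u M) {X : K} (hX : ¬ u ∣ X) : ∀ (k : ℕ) (m n : M), X • m = u ^ k • n →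
    ∃ m₁, m = u ^ k • m₁ := by
  intro k
  induction k with
  | zero => intro m n _; exact ⟨m, by rw [pow_zero, one_smul]⟩
  | succ k ih =>
    intro m n hmn
    rw [pow_succ', mul_smul] at hmn
    obtain ⟨m₂, rfl⟩ := hM.tf X m _ hX hmn
    have h1 : X • m₂ = u ^ k • n := by
      have h2 : u ^ 1 • (X • m₂) = u ^ 1 • (u ^ k • n) := by
        rw [pow_one, ← hmn, smul_comm]
      exact reg_pow_eq hM h2
    obtain ⟨m₁, hm₁⟩ := ih m₂ n h1
    exact ⟨m₁, by rw [hm₁, smul_smul, pow_succ']⟩

end mods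

/-- The scalar lemma. -/
theorem scalar (h : Ctx K R u x y) {X Y : K} {β : R} {N : ℕ} (hβ : IsUnit β)
    (hX : algebraMap K R X = β * algebraMap K R x ^ N)
    (hY : algebraMap K R Y = β * algebraMap K R y ^ N) :
    ∀ (i : ℕ) (c d e : K), X * d - Y * c = u ^ i * e → ∃ c' e', c = X * c' + u ^ i * e' := by
  have hx0 : algebraMap K R x ≠ 0 := h.two.px.ne_zero
  have hX0 : algebraMap K R X ≠ 0 := by
    rw [hX]
    exact mul_ne_zero hβ.ne_zero (pow_ne_zero _ hx0)
  intro i
  induction i with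
  | zero => intro c d e _; exact ⟨0, c, by ring⟩
  | succ i ih =>
    intro c d e hcd
    have hu0 : algebraMap K R u = 0 := (h.ker u).2 dvd_rfl
    have h1 : algebraMap K R X * algebraMap K R d = algebraMap K R Y * algebraMap K R c := by
      have h2 := congrArg (algebraMap K R) hcd
      rw [map_sub, map_mul, map_mul, map_mul, map_pow, hu0, zero_pow (Nat.succ_ne_zero i),
        zero_mul, sub_eq_zero] at h2
      exact h2
    have h2 : algebraMap K R x ^ N ∣ algebraMap K R y ^ N * algebraMap K R c := by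
      refine ⟨algebraMap K R d, ?_⟩
      rw [hX, hY, mul_assoc, mul_assoc] at h1
      exact (mul_left_cancel₀ hβ.ne_zero h1).symm
    obtain ⟨t, ht⟩ := h.two.dvd_of_dvd_mul h2
    obtain ⟨b, hb⟩ := hβ.exists_left_inv
    obtain ⟨c', hc'⟩ := h.surj (b * t)
    have h3 : algebraMap K R (c - X * c') = 0 := by
      rw [map_sub, map_mul, hc', hX, ht]
      linear_combination (-(algebraMap K R x ^ N * t)) * hb
    obtain ⟨c₁, hc₁⟩ := (h.ker _).1 h3
    have h4 : algebraMap K R (d - Y * c') = 0 := by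
      have h5 : algebraMap K R X * algebraMap K R (d - Y * c') = 0 := by
        have h6 : algebraMap K R c = algebraMap K R X * algebraMap K R c' := by
          rw [map_sub, map_mul, sub_eq_zero] at h3
          exact h3
        rw [map_sub, map_mul, mul_sub, h1, h6]
        ring
      exact (mul_eq_zero.1 h5).resolve_left hX0
    obtain ⟨d₁, hd₁⟩ := (h.ker _).1 h4
    have h5 : X * d₁ - Y * c₁ = u ^ i * e := by
      apply mul_left_cancel₀ h.pu.ne_zero
      have h6 : d = Y * c' + u * d₁ := by rw [← hd₁]; ring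
      have h7 : c = X * c' + u * c₁ := by rw [← hc₁]; ring
      rw [h6, h7] at hcd
      linear_combination hcd
    obtain ⟨c₂, e', hce⟩ := ih c₁ d₁ e h5
    refine ⟨c' + u * c₂, e', ?_⟩
    have h7 : c = X * c' + u * c₁ := by rw [← hc₁]; ring
    rw [h7, hce]
    ring

section core

variable {M : Type w} [AddCommGroup M] [Module K M]

/-- The linear combination of the vectors `g`. -/
noncomputable def lin {b : ℕ} (g : Fin b → M) : (Fin b → K) →ₗ[K] M :=
  Fintype.linearCombination K g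

theorem lin_apply {b : ℕ} (g : Fin b → M) (v : Fin b → K) : lin g v = ∑ l, v l • g l := rfl

theorem lin_mem {b : ℕ} {g : Fin b → M} {A : Submodule K M} (hg : ∀ l, g l ∈ A)
    (v : Fin b → K) : lin g v ∈ A := by
  rw [lin_apply]
  exact A.sum_mem fun l _ => A.smul_mem _ (hg l)

/-- The vectors of `A` are combinations of the `g l` modulo `u ^ i M`. -/
theorem gen_mod {b : ℕ} {g : Fin b → M} {A : Submodule K M} {φ₀ : M →ₗ[K] R} {i : ℕ}
    (hg : ∀ l, g l ∈ A)
    (hgen : ∀ a ∈ A, ∃ v : Fin b → K, φ₀ a = φ₀ (lin g v))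
    (hA : ∀ m ∈ A, φ₀ m = 0 → ∃ m₀ : M, ∃ a ∈ A, m = u ^ i • m₀ + u • a) :
    ∀ a ∈ A, ∃ (v : Fin b → K) (m₀ : M), a = lin g v + u ^ i • m₀ := by
  have key : ∀ n : ℕ, ∀ a ∈ A, ∃ (v : Fin b → K) (m₀ : M), ∃ a' ∈ A,
      a = lin g v + u ^ i • m₀ + u ^ n • a' := by
    intro n
    induction n with
    | zero =>
      intro a ha
      exact ⟨0, 0, a, ha, by rw [map_zero, smul_zero, pow_zero, one_smul, zero_add, zero_add]⟩
    | succ n ih =>
      intro a ha
      obtain ⟨v, m₀, a', ha', hav⟩ := ih a ha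
      obtain ⟨v', hv'⟩ := hgen a' ha'
      have h1 : a' - lin g v' ∈ A := A.sub_mem ha' (lin_mem hg v')
      obtain ⟨m₁, a'', ha'', h2⟩ := hA _ h1 (by rw [map_sub, hv', sub_self])
      refine ⟨v + u ^ n • v', m₀ + u ^ n • m₁, a'', ha'', ?_⟩
      have h3 : a' = lin g v' + (u ^ i • m₁ + u • a'') := by rw [← h2]; abel
      rw [hav]
      nth_rewrite 1 [h3]
      rw [map_add, map_smul, smul_add, smul_add, smul_add, smul_smul (u ^ n) u, ← pow_succ,
        smul_comm (u ^ n) (u ^ i) m₁]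
      abel
  intro a ha
  obtain ⟨v, m₀, a', -, h1⟩ := key i a ha
  exact ⟨v, m₀ + a', by rw [h1, smul_add, add_assoc]⟩

/-- The determinant as a linear form of its last row. -/
theorem exists_delta {S : Type v} [CommRing S] {b : ℕ} (Z : Fin b → Fin (b + 1) → S) :
    ∃ Δ : (Fin (b + 1) → S) →ₗ[S] S,
      (∀ v, Δ v = Matrix.det (Matrix.of (Fin.snoc Z v : Fin (b + 1) → Fin (b + 1) → S))) ∧
      ∀ j, Δ (Z j) = 0 := by
  have h1 : ∀ v : Fin (b + 1) → S,
      ((Matrix.detRowAlternating (n := Fin (b + 1)) (R := S)).toMultilinearMap.toLinearMap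
        (Fin.snoc Z 0 : Fin (b + 1) → Fin (b + 1) → S) (Fin.last b)) v =
        Matrix.det (Matrix.of (Fin.snoc Z v : Fin (b + 1) → Fin (b + 1) → S)) := by
    intro v
    rw [MultilinearMap.toLinearMap_apply, Fin.update_snoc_last]
    rfl
  refine ⟨_, h1, ?_⟩
  intro j
  rw [h1]
  refine Matrix.det_zero_of_row_eq (i := j.castSucc) (j := Fin.last b)
    (Fin.castSucc_lt_last j).ne ?_
  funext l
  rw [Matrix.of_apply, Matrix.of_apply, Fin.snoc_castSucc, Fin.snoc_last]

/-- The determinant commutes with ring homomorphisms. -/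
theorem map_det_snoc {b : ℕ} (Z : Fin b → Fin (b + 1) → K) (z : Fin b → Fin (b + 1) → R)
    (hZ : ∀ j l, algebraMap K R (Z j l) = z j l) (v : Fin (b + 1) → K) :
    algebraMap K R (Matrix.det (Matrix.of (Fin.snoc Z v : Fin (b + 1) → Fin (b + 1) → K))) =
      Matrix.det (Matrix.of (Fin.snoc z (fun l => algebraMap K R (v l)) :
        Fin (b + 1) → Fin (b + 1) → R)) := by
  rw [RingHom.map_det]
  congr 1
  ext i l
  rw [RingHom.mapMatrix_apply, Matrix.map_apply, Matrix.of_apply, Matrix.of_apply]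
  refine Fin.lastCases ?_ (fun j => ?_) i
  · rw [Fin.snoc_last, Fin.snoc_last]
  · rw [Fin.snoc_castSucc, Fin.snoc_castSucc, hZ]

/-- The reduction of a vector vanishes: it is a multiple of `u`. -/
theorem exists_u_smul (h : Ctx K R u x y) {b : ℕ} (v : Fin b → K)
    (hv : ∀ l, algebraMap K R (v l) = 0) : ∃ v₁ : Fin b → K, v = u • v₁ := by
  have h1 : ∀ l, ∃ c, v l = u * c := fun l => (h.ker _).1 (hv l)
  choose v₁ hv₁ using h1
  exact ⟨v₁, funext fun l => hv₁ l⟩

/-- The kernel of the determinant form. -/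
theorem ker_delta (h : Ctx K R u x y) {b : ℕ} {Z : Fin b → Fin (b + 1) → K}
    {z : Fin b → Fin (b + 1) → R} (hZ : ∀ j l, algebraMap K R (Z j l) = z j l)
    (Δ : (Fin (b + 1) → K) →ₗ[K] K) (hΔZ : ∀ j, Δ (Z j) = 0)
    (hker : ∀ v : Fin (b + 1) → K, algebraMap K R (Δ v) = 0 →
      (fun l => algebraMap K R (v l)) ∈ Submodule.span R (Set.range z)) :
    ∀ (n : ℕ) (v : Fin (b + 1) → K), Δ v = 0 →
      ∃ (a : Fin b → K) (v₁ : Fin (b + 1) → K), v = ∑ j, a j • Z j + u ^ n • v₁ ∧ Δ v₁ = 0 := by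
  intro n
  induction n with
  | zero =>
    intro v hv
    refine ⟨0, v, ?_, hv⟩
    rw [pow_zero, one_smul]
    simp
  | succ n ih =>
    intro v hv
    obtain ⟨a, v₁, hv₁, h1⟩ := ih v hv
    have h2 := hker v₁ (by rw [h1, map_zero])
    obtain ⟨r, hr⟩ := (Submodule.mem_span_range_iff_exists_fun R).1 h2
    have h3 : ∀ j, ∃ c, algebraMap K R c = r j := fun j => h.surj (r j)
    choose c hc using h3
    obtain ⟨v₂, hv₂⟩ := exists_u_smul h (v₁ - ∑ j, c j • Z j) (by
      intro l
      have h4 := congrFun hr l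
      rw [Finset.sum_apply] at h4
      rw [Pi.sub_apply, Finset.sum_apply, map_sub, map_sum, ← h4, sub_eq_zero]
      refine Finset.sum_congr rfl fun j _ => ?_
      rw [Pi.smul_apply, Pi.smul_apply, smul_eq_mul, smul_eq_mul, map_mul, hc, hZ])
    have h5 : v₁ = ∑ j, c j • Z j + u • v₂ := by rw [← hv₂]; abel
    refine ⟨a + u ^ n • c, v₂, ?_, ?_⟩
    · rw [hv₁, h5, smul_add, smul_smul, ← pow_succ, Finset.smul_sum, ← add_assoc,
        ← Finset.sum_add_distrib]
      congr 1
      refine Finset.sum_congr rfl fun j _ => ?_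
      rw [Pi.add_apply, Pi.smul_apply, add_smul, smul_assoc]
    · have h6 : Δ v₁ = u * Δ v₂ := by
        rw [h5, map_add, map_sum, map_smul, smul_eq_mul]
        have h7 : ∑ j, Δ (c j • Z j) = 0 := by
          refine Finset.sum_eq_zero fun j _ => ?_
          rw [map_smul, hΔZ, smul_zero]
        rw [h7, zero_add]
      rw [h1] at h6
      exact (mul_eq_zero.1 h6.symm).resolve_left h.pu.ne_zero

end core

end Pool.Agent.QU74
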