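import Pool.Agent.Lib.QU74.C1Main
import Pool.Agent.Lib.QU52.Hb

/-!
# Cell C1 of Gabber's theorem in dimension three
-/

set_option autoImplicit false
set_option linter.unusedSectionVars false

namespace Pool.Agent.QU62

open IsLocalRing

universe u w

variable {K R : Type u} [CommRing K] [IsDomain K] [IsNoetherianRing K] [IsLocalRing K]
    [CommRing R] [IsDomain R] [IsNoetherianRing R] [IsLocalRing R] [Algebra K R] {u x y : K}

/-- **C1.** The core of the limit argument. -/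
theorem limit_core (h : Ctx K R u x y) (M : Type u) [AddCommGroup M] [Module K M]
    [Module.Finite K M] (hM : TF u M) (k : ℕ)
    (hproj : ∃ (s : ℕ) (p : Fin s → M) (χ : Fin s → M →ₗ[K] K),
      ∀ m : M, u ^ k • m = ∑ l, χ l m • p l)
    (φ₀ : M →ₗ[K] R) (A : Submodule K M)
    (hA : ∀ m ∈ A, φ₀ m = 0 → ∃ m₀ : M, ∃ a ∈ A, m = u ^ (k + 1) • m₀ + u • a) (N : ℕ)
    (hx : ∃ a ∈ A, φ₀ a = algebraMap K R x ^ N) (hy : ∃ a ∈ A, φ₀ a = algebraMap K R y ^ N) :
    ∃ (a m₁ m₂ : M) (X : K) (β : R), a ∈ A ∧ φ₀ a = algebraMap K R x ^ N ∧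
      a = X • m₁ + u • m₂ ∧ IsUnit β ∧ algebraMap K R X = β * algebraMap K R x ^ N :=
  QU74.limit_core_of h M hM k hproj φ₀ A hA N hx hy
    (fun _ l h1 h2 => h.two.hb l h1 h2)

end Pool.Agent.QU62
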