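import Pool.Agent.Lib.QU74.C1

/-!
# Cell C1 of Gabber's theorem in dimension three, from the Hilbert-Burch lemma over `R`
-/

set_option autoImplicit false
set_option linter.unusedSectionVars false

namespace Pool.Agent.QU74

open IsLocalRing Pool.Agent.QU62

universe u v w

variable {K R : Type u} [CommRing K] [IsDomain K] [IsNoetherianRing K] [IsLocalRing K]
    [CommRing R] [IsDomain R] [IsNoetherianRing R] [IsLocalRing R] [Algebra K R] {u x y : K}

/-- The conclusion of the Hilbert-Burch lemma over `R`. -/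
def HbConc (R : Type u) [CommRing R] {b : ℕ} (l : (Fin (b + 1) → R) →ₗ[R] R) : Prop :=
  ∃ (z : Fin b → Fin (b + 1) → R) (β : R), IsUnit β ∧ (∀ j, l (z j) = 0) ∧
    (∀ v, l v = 0 → v ∈ Submodule.span R (Set.range z)) ∧
    ∀ v, Matrix.det (Matrix.of (Fin.snoc z v : Fin (b + 1) → Fin (b + 1) → R)) = β * l v

/-- **C1** with explicit generators. -/
theorem core_gen (h : Ctx K R u x y) {M : Type w} [AddCommGroup M] [Module K M]
    (hM : TF u M) (k : ℕ) {s : ℕ} (p : Fin s → M) (χ : Fin s → M →ₗ[K] K)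
    (hproj : ∀ m : M, u ^ k • m = ∑ l, χ l m • p l)
    (φ₀ : M →ₗ[K] R) (A : Submodule K M)
    (hA : ∀ m ∈ A, φ₀ m = 0 → ∃ m₀ : M, ∃ a ∈ A, m = u ^ (k + 1) • m₀ + u • a) (N : ℕ)
    (hx : ∃ a ∈ A, φ₀ a = algebraMap K R x ^ N) (hy : ∃ a ∈ A, φ₀ a = algebraMap K R y ^ N)
    {b : ℕ} (g : Fin (b + 1) → M) (hg : ∀ l, g l ∈ A)
    (hgen : ∀ a ∈ A, ∃ v : Fin (b + 1) → K, φ₀ a = φ₀ (lin g v))
    (hb : HbConc R (Fintype.linearCombination R (fun l => φ₀ (g l)))) :
    ∃ (a m₁ m₂ : M) (X : K) (β : R), a ∈ A ∧ φ₀ a = algebraMap K R x ^ N ∧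
      a = X • m₁ + u • m₂ ∧ IsUnit β ∧ algebraMap K R X = β * algebraMap K R x ^ N := by
  obtain ⟨z, β, hβ, hz, hspan, hdet⟩ := hb
  have hl : ∀ v : Fin (b + 1) → K,
      Fintype.linearCombination R (fun l => φ₀ (g l)) (fun l => algebraMap K R (v l)) =
        φ₀ (lin g v) := by
    intro v
    rw [Fintype.linearCombination_apply, lin_apply, map_sum]
    refine Finset.sum_congr rfl fun l _ => ?_
    rw [map_smul, smul_eq_mul, Algebra.smul_def]
  have hmod := gen_mod hg hgen hA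
  -- the lifts of the relations
  have hlift : ∀ j, ∃ Zj : Fin (b + 1) → K, (∀ l, algebraMap K R (Zj l) = z j l) ∧
      ∃ m₀ : M, lin g Zj = u ^ (k + 1) • m₀ := by
    intro j
    have h1 : ∀ l, ∃ c, algebraMap K R c = z j l := fun l => h.surj _
    choose c hc using h1
    have hcz : (fun l => algebraMap K R (c l)) = z j := funext hc
    have h2 : φ₀ (lin g c) = 0 := by rw [← hl, hcz, hz]
    obtain ⟨m₀, a, ha, h3⟩ := hA _ (lin_mem hg c) h2
    obtain ⟨v, m₁, h4⟩ := hmod a ha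
    refine ⟨c - u • v, ?_, m₀ + u • m₁, ?_⟩
    · intro l
      rw [Pi.sub_apply, Pi.smul_apply, smul_eq_mul, map_sub, map_mul, (h.ker u).2 dvd_rfl,
        zero_mul, sub_zero, hc]
    · rw [map_sub, map_smul, h3, h4, smul_add, smul_add, smul_comm u (u ^ (k + 1)) m₁]
      abel
  choose Z hZ m₀ hm₀ using hlift
  obtain ⟨Δ, hΔ, hΔZ⟩ := exists_delta Z
  have hΔl : ∀ v, algebraMap K R (Δ v) = β * φ₀ (lin g v) := by
    intro v
    rw [hΔ, map_det_snoc Z z hZ, hdet, hl]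
  -- the kernel of the determinant form
  have hker := ker_delta h hZ Δ hΔZ (by
    intro v hv
    rw [hΔl] at hv
    apply hspan
    rw [hl]
    exact (mul_eq_zero.1 hv).resolve_left hβ.ne_zero)
  have hw : ∀ v, Δ v = 0 → ∃ m, lin g v = u ^ (k + 1) • m := by
    intro v hv
    obtain ⟨a, v₁, h1, -⟩ := hker (k + 1) v hv
    refine ⟨∑ j, a j • m₀ j + lin g v₁, ?_⟩
    rw [h1, map_add, map_smul, map_sum, smul_add, Finset.smul_sum]
    congr 1
    refine Finset.sum_congr rfl fun j _ => ?_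
    rw [map_smul, hm₀, smul_comm]
  obtain ⟨ax, hax, hax'⟩ := hx
  obtain ⟨ay, hay, hay'⟩ := hy
  obtain ⟨vx, hvx⟩ := hgen ax hax
  obtain ⟨vy, hvy⟩ := hgen ay hay
  rw [hax'] at hvx
  rw [hay'] at hvy
  have hX : algebraMap K R (Δ vx) = β * algebraMap K R x ^ N := by rw [hΔl, ← hvx]
  have hY : algebraMap K R (Δ vy) = β * algebraMap K R y ^ N := by rw [hΔl, ← hvy]
  obtain ⟨m, hm⟩ := hw (Δ vx • vy - Δ vy • vx) (by
    rw [map_sub, map_smul, map_smul, smul_eq_mul, smul_eq_mul, mul_comm, sub_self])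
  rw [map_sub, map_smul, map_smul] at hm
  have hχ : ∀ l, ∃ c' e', χ l (lin g vx) = Δ vx * c' + u ^ (k + 1) * e' := by
    intro l
    refine scalar h hβ hX hY (k + 1) (χ l (lin g vx)) (χ l (lin g vy)) (χ l m) ?_
    have h1 := congrArg (χ l) hm
    rw [map_sub, map_smul, map_smul, map_smul, smul_eq_mul, smul_eq_mul, smul_eq_mul] at h1
    exact h1
  choose c e hce using hχ
  have hu : u ^ k • lin g vx = Δ vx • (∑ l, c l • p l) + u ^ (k + 1) • ∑ l, e l • p l := by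
    rw [hproj, Finset.smul_sum, Finset.smul_sum, ← Finset.sum_add_distrib]
    refine Finset.sum_congr rfl fun l _ => ?_
    rw [hce, add_smul, mul_smul, mul_smul]
  have hXu : ¬ u ∣ Δ vx := by
    intro hd
    have h1 := (h.ker _).2 hd
    rw [hX] at h1
    exact mul_ne_zero hβ.ne_zero (pow_ne_zero _ h.two.px.ne_zero) h1
  obtain ⟨m₁, hm₁⟩ := tf_pow hM hXu k (∑ l, c l • p l) (lin g vx - u • ∑ l, e l • p l) (by
    rw [smul_sub, hu, smul_smul, ← pow_succ]
    abel)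
  refine ⟨lin g vx, m₁, ∑ l, e l • p l, Δ vx, β, lin_mem hg vx, hvx.symm, ?_, hβ, hX⟩
  apply reg_pow_eq hM (k := k)
  rw [hu, hm₁, smul_add, smul_smul (u ^ k) u, ← pow_succ, smul_comm (u ^ k) (Δ vx) m₁]

/-- **C1**, from the Hilbert-Burch lemma over `R`. -/
theorem limit_core_of (h : Ctx K R u x y) (M : Type u) [AddCommGroup M] [Module K M]
    (hM : TF u M) (k : ℕ)
    (hproj : ∃ (s : ℕ) (p : Fin s → M) (χ : Fin s → M →ₗ[K] K),
      ∀ m : M, u ^ k • m = ∑ l, χ l m • p l)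
    (φ₀ : M →ₗ[K] R) (A : Submodule K M)
    (hA : ∀ m ∈ A, φ₀ m = 0 → ∃ m₀ : M, ∃ a ∈ A, m = u ^ (k + 1) • m₀ + u • a) (N : ℕ)
    (hx : ∃ a ∈ A, φ₀ a = algebraMap K R x ^ N) (hy : ∃ a ∈ A, φ₀ a = algebraMap K R y ^ N)
    (hb : ∀ (b : ℕ) (l : (Fin (b + 1) → R) →ₗ[R] R), algebraMap K R x ^ N ∈ LinearMap.range l →
      algebraMap K R y ^ N ∈ LinearMap.range l → HbConc R l) :
    ∃ (a m₁ m₂ : M) (X : K) (β : R), a ∈ A ∧ φ₀ a = algebraMap K R x ^ N ∧
      a = X • m₁ + u • m₂ ∧ IsUnit β ∧ algebraMap K R X = β * algebraMap K R x ^ N := by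
  obtain ⟨s, p, χ, hp⟩ := hproj
  have hf1 : Module.Finite K R := Module.Finite.of_surjective (Algebra.linearMap K R) h.surj
  have hn : IsNoetherian K R := isNoetherian_of_isNoetherianRing_of_finite K R
  obtain ⟨b, f, hf⟩ := Submodule.fg_iff_exists_fin_generating_family.1
    (IsNoetherian.noetherian (A.map φ₀))
  have h1 : ∀ l, ∃ a ∈ A, φ₀ a = f l := by
    intro l
    have h2 : f l ∈ A.map φ₀ := by
      rw [← hf]
      exact Submodule.subset_span ⟨l, rfl⟩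
    exact h2
  choose g' hg' hg'' using h1
  have hgen : ∀ a ∈ A, ∃ v : Fin (b + 1) → K, φ₀ a = φ₀ (lin (Fin.snoc g' 0) v) := by
    intro a ha
    have h2 : φ₀ a ∈ Submodule.span K (Set.range f) := by
      rw [hf]
      exact ⟨a, ha, rfl⟩
    obtain ⟨c, hc⟩ := (Submodule.mem_span_range_iff_exists_fun K).1 h2
    refine ⟨Fin.snoc c 0, ?_⟩
    rw [lin_apply, Fin.sum_univ_castSucc, ← hc]
    simp only [Fin.snoc_castSucc, Fin.snoc_last, smul_zero, add_zero, map_sum, map_smul, hg'']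
  have hg : ∀ l, (Fin.snoc g' 0 : Fin (b + 1) → M) l ∈ A := by
    intro l
    refine Fin.lastCases ?_ (fun j => ?_) l
    · rw [Fin.snoc_last]
      exact A.zero_mem
    · rw [Fin.snoc_castSucc]
      exact hg' j
  have hl : ∀ v : Fin (b + 1) → K,
      Fintype.linearCombination R (fun l => φ₀ ((Fin.snoc g' 0 : Fin (b + 1) → M) l))
        (fun l => algebraMap K R (v l)) = φ₀ (lin (Fin.snoc g' 0 : Fin (b + 1) → M) v) := by
    intro v
    rw [Fintype.linearCombination_apply, lin_apply, map_sum]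
    refine Finset.sum_congr rfl fun l _ => ?_
    rw [map_smul, smul_eq_mul, Algebra.smul_def]
  refine core_gen h hM k p χ hp φ₀ A hA N hx hy (Fin.snoc g' 0) hg hgen (hb b _ ?_ ?_)
  · obtain ⟨a, ha, ha'⟩ := hx
    obtain ⟨v, hv⟩ := hgen a ha
    exact ⟨_, by rw [hl, ← hv, ha']⟩
  · obtain ⟨a, ha, ha'⟩ := hy
    obtain ⟨v, hv⟩ := hgen a ha
    exact ⟨_, by rw [hl, ← hv, ha']⟩

end Pool.Agent.QU74
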