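import Pool.Agent.Lib.QU74.Step

/-!
# The step, assembled
-/

set_option autoImplicit false
set_option linter.unusedSectionVars false

namespace Pool.Agent.QU74

open IsLocalRing Pool.Agent.QU62

universe u v w

variable {K R : Type u} [CommRing K] [IsDomain K] [IsNoetherianRing K] [IsLocalRing K]
    [CommRing R] [IsDomain R] [IsNoetherianRing R] [IsLocalRing R] [Algebra K R] {u x y : K}

section main

variable {M : Type u} [AddCommGroup M] [Module K M] {n n' : ℕ}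
    {φ : M →ₗ[K] (Fin (n + 1) → R)} {φ₀ : M →ₗ[K] R} {ψ : M →ₗ[K] (Fin n → R)}
    {φ' : LinearMap.ker ψ →ₗ[K] (Fin n' → R)}
    {i : (Fin n → R) →ₗ[K] (Fin n' → R)} {q : (Fin n' → R) →ₗ[K] R}

/-- The second alternative: `q` is onto. -/
theorem second (h : Ctx K R u x y) (hM : TF u M) (hφ : Dat u x y M (n + 1) φ)
    (hφ₀ : ∀ m, φ₀ m = φ m 0) (hψ : ∀ m i, ψ m i = φ m i.succ)
    (hφ' : Dat u x y (LinearMap.ker ψ) n' φ')
    (hi : ∀ m (hm : u • m ∈ LinearMap.ker ψ), i (ψ m) = φ' ⟨u • m, hm⟩)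
    (hq : ∀ m', q (φ' m') = φ₀ m') (s : Fin n' → R) (hs : q s = 1) :
    ∃ φ'' : LinearMap.ker ψ →ₗ[K] (Fin (n + 1) → R), Dat u x y (LinearMap.ker ψ) (n + 1) φ'' ∧
      colen φ'' ≤ colen φ ∧ (∀ m, φ'' m 0 = φ₀ m) ∧
      ∀ (m : M) (hm : u • m ∈ LinearMap.ker ψ) (i : Fin n), φ'' ⟨u • m, hm⟩ i.succ = ψ m i := by
  have hinj := i_inj h hM hφ hψ hφ' hi
  have hex : ∀ m' : LinearMap.ker ψ, ∃ g, i g = φ' m' - φ₀ m' • s := by
    intro m'
    refine q_exact h hM hφ hφ₀ hψ hφ' hi hq _ ?_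
    rw [map_sub, map_R h, hs, mul_one, hq, sub_self]
  choose p hp using hex
  have huniq : ∀ (m' : LinearMap.ker ψ) (g : Fin n → R), i g = φ' m' - φ₀ m' • s → p m' = g := by
    intro m' g hg
    apply sub_eq_zero.1
    apply hinj
    rw [map_sub, hp, hg, sub_self]
  let ψ' : LinearMap.ker ψ →ₗ[K] (Fin n → R) :=
    { toFun := p
      map_add' := by
        intro a b
        apply huniq
        rw [map_add, hp, hp, map_add, Submodule.coe_add, map_add, add_smul]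
        abel
      map_smul' := by
        intro c a
        apply huniq
        rw [RingHom.id_apply, map_smul, hp, map_smul, Submodule.coe_smul, map_smul, smul_sub,
          smul_assoc] }
  have hψ' : ∀ m', i (ψ' m') = φ' m' - φ₀ m' • s := hp
  let φ'' : LinearMap.ker ψ →ₗ[K] (Fin (n + 1) → R) :=
    LinearMap.pi (Fin.cons (φ₀ ∘ₗ (LinearMap.ker ψ).subtype) (fun j => LinearMap.proj j ∘ₗ ψ'))
  have h0 : ∀ m', φ'' m' 0 = φ₀ m' := fun m' => rfl
  have h1 : ∀ m' (j : Fin n), φ'' m' j.succ = ψ' m' j := fun m' j => rfl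
  let e : (Fin (n + 1) → R) →ₗ[K] (Fin n' → R) :=
    ((LinearMap.toSpanSingleton R (Fin n' → R) s).restrictScalars K) ∘ₗ
      (LinearMap.proj 0) + i ∘ₗ LinearMap.funLeft K R (Fin.succ (n := n))
  have he : ∀ v, e v = v 0 • s + i (fun j => v j.succ) := fun v => rfl
  have hqi := q_i h hφ hψ hi hq
  have heinj : ∀ v, e v = 0 → v = 0 := by
    intro v hv
    have h2 : q (e v) = 0 := by rw [hv, map_zero]
    rw [he, map_add, map_R h, hs, mul_one, hqi, add_zero] at h2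
    have h3 : i (fun j => v j.succ) = 0 := by
      rw [he, h2, zero_smul, zero_add] at hv
      exact hv
    have h4 := hinj _ h3
    funext j
    refine Fin.cases ?_ (fun j => ?_) j
    · exact h2
    · exact congrFun h4 j
  have heφ : ∀ m', e (φ'' m') = φ' m' := by
    intro m'
    have h2 : (fun j => φ'' m' (Fin.succ j)) = ψ' m' := rfl
    rw [he, h0, h2, hψ']
    abel
  have hker : ∀ m', φ'' m' = 0 → ∃ m₁, m' = u • m₁ := by
    intro m' hm'
    apply hφ'.ker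
    rw [← heφ, hm', map_zero]
  have hcof : Cof x y (LinearMap.range φ'') := by
    intro v
    obtain ⟨N, ⟨m₁, h2⟩, ⟨m₂, h3⟩⟩ := hφ'.cof (e v)
    refine ⟨N, ⟨m₁, ?_⟩, ⟨m₂, ?_⟩⟩
    · apply sub_eq_zero.1
      apply heinj
      rw [map_sub, heφ, map_smul, h2, sub_self]
    · apply sub_eq_zero.1
      apply heinj
      rw [map_sub, heφ, map_smul, h3, sub_self]
  refine ⟨φ'', ⟨hker, hcof⟩, ?_, h0, ?_⟩
  · have h2 : LinearMap.range φ'' ≤ (LinearMap.range φ').comap e := by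
      rintro _ ⟨m', rfl⟩
      exact ⟨m', (heφ m').symm⟩
    have h3 : Module.length K ((Fin (n + 1) → R) ⧸ LinearMap.range φ'') ≤
        Module.length K ((Fin n' → R) ⧸ LinearMap.range φ') := by
      refine Module.length_le_of_injective (Submodule.mapQ _ _ e h2) ?_
      intro a b hab
      obtain ⟨a, rfl⟩ := Submodule.Quotient.mk_surjective _ a
      obtain ⟨b, rfl⟩ := Submodule.Quotient.mk_surjective _ b
      rw [Submodule.mapQ_apply, Submodule.mapQ_apply, Submodule.Quotient.eq, ← map_sub] at hab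
      rw [Submodule.Quotient.eq]
      obtain ⟨m', hm'⟩ := hab
      refine ⟨m', ?_⟩
      apply sub_eq_zero.1
      apply heinj
      rw [map_sub, heφ, hm', sub_self]
    have h4 : colen φ = colen φ' + Module.length K (R ⧸ LinearMap.range q) :=
      colen_eq h hM hφ hφ₀ hψ hφ' hi hq
    exact h3.trans (h4.symm ▸ le_self_add)
  · intro m hm j
    rw [h1]
    have h2 : p ⟨u • m, hm⟩ = ψ m := by
      apply huniq
      have h3 : φ₀ ((⟨u • m, hm⟩ : LinearMap.ker ψ) : M) = 0 :=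
        (map_smul φ₀ u m).trans (u_smul' h _)
      rw [hi m hm, h3, zero_smul, sub_zero]
    exact congrFun h2 j

/-- The first alternative: `q` is not onto. -/
theorem first (h : Ctx K R u x y) (hM : TF u M) (hφ : Dat u x y M (n + 1) φ)
    (hφ₀ : ∀ m, φ₀ m = φ m 0) (hψ : ∀ m i, ψ m i = φ m i.succ)
    (hφ' : Dat u x y (LinearMap.ker ψ) n' φ')
    (hi : ∀ m (hm : u • m ∈ LinearMap.ker ψ), i (ψ m) = φ' ⟨u • m, hm⟩)
    (hq : ∀ m', q (φ' m') = φ₀ m') (hfin : colen φ ≠ ⊤) (hs : LinearMap.range q ≠ ⊤) :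
    colen φ' < colen φ := by
  have h1 := colen_eq h hM hφ hφ₀ hψ hφ' hi hq
  have h2 : Nontrivial (R ⧸ LinearMap.range q) := Submodule.Quotient.nontrivial_iff.2 hs
  have h3 : 0 < Module.length K (R ⧸ LinearMap.range q) := Module.length_pos
  rw [h1] at hfin ⊢
  have h4 : colen φ' ≠ ⊤ := by
    intro h5
    rw [h5, top_add] at hfin
    exact hfin rfl
  have h5 : 1 ≤ Module.length K (R ⧸ LinearMap.range q) := Order.one_le_iff_pos.2 h3
  exact lt_of_lt_of_le ((ENat.lt_add_one_iff h4).2 le_rfl) (add_le_add le_rfl h5)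

end main

/-- **B.** The step, from the existence of `φ'`, the extension property and the finiteness of the
colength. -/
theorem step_of (h : Ctx K R u x y)
    (hext : ∀ (A B : Type u) [AddCommGroup A] [Module K A] [AddCommGroup B] [Module K B]
      (α : A →ₗ[K] B), Function.Injective α → Cof x y (LinearMap.range α) →
      ∀ g : A →ₗ[K] R, ∃ g' : B →ₗ[K] R, g' ∘ₗ α = g)
    (M : Type u) [AddCommGroup M] [Module K M] (hM : TF u M) {n : ℕ}
    (φ : M →ₗ[K] (Fin (n + 1) → R)) (hφ : Dat u x y M (n + 1) φ) (hfin : colen φ ≠ ⊤)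
    (φ₀ : M →ₗ[K] R) (hφ₀ : ∀ m, φ₀ m = φ m 0)
    (ψ : M →ₗ[K] (Fin n → R)) (hψ : ∀ m i, ψ m i = φ m i.succ)
    (hphi : ∃ (n' : ℕ) (φ' : LinearMap.ker ψ →ₗ[K] (Fin n' → R)),
      Dat u x y (LinearMap.ker ψ) n' φ') :
    (∃ (n' : ℕ) (φ' : LinearMap.ker ψ →ₗ[K] (Fin n' → R)),
      Dat u x y (LinearMap.ker ψ) n' φ' ∧ colen φ' < colen φ) ∨
    (∃ φ' : LinearMap.ker ψ →ₗ[K] (Fin (n + 1) → R), Dat u x y (LinearMap.ker ψ) (n + 1) φ' ∧
      colen φ' ≤ colen φ ∧ (∀ m, φ' m 0 = φ₀ m) ∧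
      ∀ (m : M) (hm : u • m ∈ LinearMap.ker ψ) (i : Fin n), φ' ⟨u • m, hm⟩ i.succ = ψ m i) := by
  obtain ⟨n', φ', hφ'⟩ := hphi
  obtain ⟨i, q, hi, hq⟩ := exists_i_q h hext hφ hψ hφ' φ₀
  by_cases hs : LinearMap.range q = ⊤
  · right
    have h1 : (1 : R) ∈ LinearMap.range q := by rw [hs]; trivial
    obtain ⟨s, hs1⟩ := h1
    exact second h hM hφ hφ₀ hψ hφ' hi hq s hs1
  · left
    exact ⟨n', φ', hφ', first h hM hφ hφ₀ hψ hφ' hi hq hfin hs⟩

end Pool.Agent.QU74
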