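import Pool.Agent.Lib.QU62.Base

/-!
# The step of the flag: from `M` to the kernel of the last coordinates

`M` is a module with an embedding `φ` of `M ⧸ u M` into `R ^ (n + 1)` of finite colength; `ψ` is
the vector of the last `n` coordinates of `φ`. The kernel of `ψ` has an embedding of smaller
colength, or an embedding of the same colength with a chosen form.
-/

set_option autoImplicit false
set_option linter.unusedSectionVars false

namespace Pool.Agent.QU74

open IsLocalRing Pool.Agent.QU62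

universe u v w

section len

variable {K : Type u} [CommRing K] {A : Type v} {B C : Type w} [AddCommGroup A] [Module K A]
    [AddCommGroup B] [Module K B] [AddCommGroup C] [Module K C]

/-- The length of a quotient of the middle of a right exact sequence. -/
theorem length_quot_exact (i : A →ₗ[K] B) (q : B →ₗ[K] C) (hq : Function.Surjective q)
    (hex : ∀ b, q b = 0 → ∃ a, i a = b) (hqi : ∀ a, q (i a) = 0) (Y : Submodule K B) :
    Module.length K (B ⧸ Y) =
      Module.length K (A ⧸ Y.comap i) + Module.length K (C ⧸ Y.map q) := by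
  have h1 : Y ≤ (Y.map q).comap q := Submodule.le_comap_map q Y
  refine Module.length_eq_add_of_exact (Submodule.mapQ (Y.comap i) Y i le_rfl)
    (Submodule.mapQ Y (Y.map q) q h1) ?_ ?_ ?_
  · intro a b hab
    obtain ⟨a, rfl⟩ := Submodule.Quotient.mk_surjective _ a
    obtain ⟨b, rfl⟩ := Submodule.Quotient.mk_surjective _ b
    rw [Submodule.mapQ_apply, Submodule.mapQ_apply, Submodule.Quotient.eq, ← map_sub] at hab
    rw [Submodule.Quotient.eq]
    exact hab
  · intro c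
    obtain ⟨c, rfl⟩ := Submodule.Quotient.mk_surjective _ c
    obtain ⟨b, rfl⟩ := hq c
    exact ⟨Submodule.Quotient.mk b, rfl⟩
  · intro b
    obtain ⟨b, rfl⟩ := Submodule.Quotient.mk_surjective _ b
    rw [Submodule.mapQ_apply, Submodule.Quotient.mk_eq_zero]
    constructor
    · rintro ⟨y, hy, hyb⟩
      have h2 : q (b - y) = 0 := by rw [map_sub, hyb, sub_self]
      obtain ⟨a, ha⟩ := hex _ h2
      refine ⟨Submodule.Quotient.mk a, ?_⟩
      rw [Submodule.mapQ_apply, Submodule.Quotient.eq, ha]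
      have h3 : b - y - b = -y := by abel
      rw [h3]
      exact Y.neg_mem hy
    · rintro ⟨a, ha⟩
      obtain ⟨a, rfl⟩ := Submodule.Quotient.mk_surjective _ a
      rw [Submodule.mapQ_apply, Submodule.Quotient.eq] at ha
      refine ⟨b - i a, ?_, ?_⟩
      · have h3 : b - i a = -(i a - b) := by abel
        rw [h3]
        exact Y.neg_mem ha
      · rw [map_sub, hqi, sub_zero]

/-- The length of a quotient is additive in a chain `Y ≤ Z`. -/
theorem length_quot_chain {Y Z : Submodule K B} (hYZ : Y ≤ Z) :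
    Module.length K (B ⧸ Y) =
      Module.length K (Z ⧸ Y.comap Z.subtype) + Module.length K (B ⧸ Z) := by
  rw [length_quot_exact Z.subtype Z.mkQ (Submodule.mkQ_surjective Z) ?_ ?_ Y]
  · congr 1
    have h2 : Y.map Z.mkQ = ⊥ := by
      rw [eq_bot_iff]
      rintro z ⟨y, hy, rfl⟩
      rw [Submodule.mem_bot, Submodule.mkQ_apply, Submodule.Quotient.mk_eq_zero]
      exact hYZ hy
    rw [h2]
    exact (Submodule.quotEquivOfEqBot ⊥ rfl).length_eq
  · intro b hb
    rw [Submodule.mkQ_apply, Submodule.Quotient.mk_eq_zero] at hb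
    exact ⟨⟨b, hb⟩, rfl⟩
  · intro a
    rw [Submodule.mkQ_apply, Submodule.Quotient.mk_eq_zero]
    exact a.2

end len

variable {K R : Type u} [CommRing K] [IsDomain K] [IsNoetherianRing K] [IsLocalRing K]
    [CommRing R] [IsDomain R] [IsNoetherianRing R] [IsLocalRing R] [Algebra K R] {u x y : K}

/-- Extension of a functional from a cofinite image. -/
theorem ext_one
    (hext : ∀ (A B : Type u) [AddCommGroup A] [Module K A] [AddCommGroup B] [Module K B]
      (α : A →ₗ[K] B), Function.Injective α → Cof x y (LinearMap.range α) →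
      ∀ g : A →ₗ[K] R, ∃ g' : B →ₗ[K] R, g' ∘ₗ α = g)
    {M B : Type u} [AddCommGroup M] [Module K M] [AddCommGroup B] [Module K B]
    (p : M →ₗ[K] B) (hc : Cof x y (LinearMap.range p)) (g : M →ₗ[K] R)
    (hg : ∀ m, p m = 0 → g m = 0) : ∃ g' : B →ₗ[K] R, ∀ m, g' (p m) = g m := by
  have hle : LinearMap.ker p ≤ LinearMap.ker g := fun m hm => hg m hm
  have hinj : Function.Injective ((LinearMap.ker p).liftQ p le_rfl) :=
    LinearMap.ker_eq_bot.1 (Submodule.ker_liftQ_eq_bot' _ _ rfl)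
  have hr : Cof x y (LinearMap.range ((LinearMap.ker p).liftQ p le_rfl)) := by
    rw [Submodule.range_liftQ]
    exact hc
  obtain ⟨g', hg'⟩ := hext _ _ _ hinj hr ((LinearMap.ker p).liftQ g hle)
  refine ⟨g', fun m => ?_⟩
  have h1 := LinearMap.congr_fun hg' ((LinearMap.ker p).mkQ m)
  exact h1

/-- Extension of a vector of functionals from a cofinite image. -/
theorem ext_vec
    (hext : ∀ (A B : Type u) [AddCommGroup A] [Module K A] [AddCommGroup B] [Module K B]
      (α : A →ₗ[K] B), Function.Injective α → Cof x y (LinearMap.range α) →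
      ∀ g : A →ₗ[K] R, ∃ g' : B →ₗ[K] R, g' ∘ₗ α = g)
    {M B : Type u} [AddCommGroup M] [Module K M] [AddCommGroup B] [Module K B]
    (p : M →ₗ[K] B) (hc : Cof x y (LinearMap.range p)) {n : ℕ} (g : M →ₗ[K] (Fin n → R))
    (hg : ∀ m, p m = 0 → g m = 0) : ∃ g' : B →ₗ[K] (Fin n → R), ∀ m, g' (p m) = g m := by
  have h1 : ∀ j : Fin n, ∃ g' : B →ₗ[K] R, ∀ m, g' (p m) = g m j := by
    intro j
    obtain ⟨g', hg'⟩ := ext_one hext p hc (LinearMap.proj j ∘ₗ g) (by
      intro m hm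
      rw [LinearMap.comp_apply, hg m hm, map_zero])
    exact ⟨g', hg'⟩
  choose g' hg' using h1
  refine ⟨LinearMap.pi g', fun m => ?_⟩
  funext j
  rw [LinearMap.pi_apply, hg']

/-- `TF` passes to the kernel of a map to a free module over the quotient ring. -/
theorem tf_ker (h : Ctx K R u x y) {M : Type w} [AddCommGroup M] [Module K M] (hM : TF u M)
    {n : ℕ} (ψ : M →ₗ[K] (Fin n → R)) : TF u (LinearMap.ker ψ) := by
  constructor
  · intro m hm
    have h1 : u • (m : M) = 0 := congrArg Subtype.val hm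
    exact Subtype.ext (hM.reg _ h1)
  · intro c m m' hc hcm
    have h1 : c • (m : M) = u • (m' : M) := congrArg Subtype.val hcm
    obtain ⟨m₁, hm₁⟩ := hM.tf c _ _ hc h1
    have h2 : c • m₁ = (m' : M) := by
      have h3 : u • (c • m₁ - (m' : M)) = 0 := by
        rw [smul_sub, smul_comm, ← hm₁, h1, sub_self]
      exact sub_eq_zero.1 (hM.reg _ h3)
    have h4 : m₁ ∈ LinearMap.ker ψ := by
      rw [LinearMap.mem_ker]
      have h5 : c • ψ m₁ = 0 := by
        rw [← map_smul, h2]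
        exact m'.2
      funext j
      have h6 : algebraMap K R c * ψ m₁ j = 0 := by
        have h7 := congrFun h5 j
        rwa [Pi.smul_apply, Algebra.smul_def] at h7
      rcases mul_eq_zero.1 h6 with h7 | h7
      · exact absurd ((h.ker c).1 h7) hc
      · exact h7
    exact ⟨⟨m₁, h4⟩, Subtype.ext hm₁⟩

/-- `u` kills the modules over `R`. -/
theorem u_smul (h : Ctx K R u x y) {n : ℕ} (f : Fin n → R) : u • f = 0 := by
  funext j
  rw [Pi.smul_apply, Algebra.smul_def, (h.ker u).2 dvd_rfl, zero_mul, Pi.zero_apply]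

theorem u_smul' (h : Ctx K R u x y) (f : R) : u • f = 0 := by
  rw [Algebra.smul_def, (h.ker u).2 dvd_rfl, zero_mul]

/-- Powers of `x` are regular. -/
theorem x_reg (h : Ctx K R u x y) {n : ℕ} {N : ℕ} {f : Fin n → R} (hf : x ^ N • f = 0) :
    f = 0 := by
  funext j
  have h1 := congrFun hf j
  rw [Pi.smul_apply, Algebra.smul_def, map_pow, Pi.zero_apply] at h1
  rcases mul_eq_zero.1 h1 with h2 | h2
  · exact absurd h2 (pow_ne_zero _ h.two.px.ne_zero)
  · exact h2

theorem x_reg' (h : Ctx K R u x y) {N : ℕ} {f : R} (hf : x ^ N • f = 0) : f = 0 := by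
  rw [Algebra.smul_def, map_pow] at hf
  rcases mul_eq_zero.1 hf with h2 | h2
  · exact absurd h2 (pow_ne_zero _ h.two.px.ne_zero)
  · exact h2

/-- Saturation of a free module: `x ^ a • f = i g₁`, `y ^ b • f = i g₂`. -/
theorem sat_free (h : Ctx K R u x y) {n n' : ℕ} (i : (Fin n → R) →ₗ[K] (Fin n' → R))
    (hi : ∀ g, i g = 0 → g = 0) {a : ℕ} {f : Fin n' → R} {g₁ g₂ : Fin n → R}
    (h1 : x ^ a • f = i g₁) (h2 : y ^ a • f = i g₂) : ∃ g, i g = f := by
  have h3 : y ^ a • g₁ = x ^ a • g₂ := by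
    have h4 : i (y ^ a • g₁ - x ^ a • g₂) = 0 := by
      rw [map_sub, map_smul, map_smul, ← h1, ← h2, smul_comm, sub_self]
    exact sub_eq_zero.1 (hi _ h4)
  have h5 : ∀ j, ∃ r : R, g₁ j = algebraMap K R x ^ a * r := by
    intro j
    have h6 := congrFun h3 j
    rw [Pi.smul_apply, Pi.smul_apply, Algebra.smul_def, Algebra.smul_def, map_pow, map_pow] at h6
    have h7 : algebraMap K R x ^ a ∣ algebraMap K R y ^ a * g₁ j := ⟨g₂ j, h6⟩
    exact h.two.dvd_of_dvd_mul h7
  choose g hg using h5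
  refine ⟨g, ?_⟩
  have h6 : g₁ = x ^ a • g := by
    funext j
    rw [hg j, Pi.smul_apply, Algebra.smul_def, map_pow]
  have h7 : x ^ a • (i g - f) = 0 := by
    rw [smul_sub, ← map_smul, ← h6, h1, sub_self]
  exact sub_eq_zero.1 (x_reg h h7)

/-- `K`-linear maps between `R`-modules are `R`-linear. -/
theorem map_R (h : Ctx K R u x y) {n : ℕ} (q : (Fin n → R) →ₗ[K] R) (r : R) (s : Fin n → R) :
    q (r • s) = r * q s := by
  obtain ⟨c, rfl⟩ := h.surj r
  rw [algebraMap_smul, map_smul, Algebra.smul_def]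

section main

variable {M : Type u} [AddCommGroup M] [Module K M] {n n' : ℕ}
    {φ : M →ₗ[K] (Fin (n + 1) → R)} {φ₀ : M →ₗ[K] R} {ψ : M →ₗ[K] (Fin n → R)}
    {φ' : LinearMap.ker ψ →ₗ[K] (Fin n' → R)}
    {i : (Fin n → R) →ₗ[K] (Fin n' → R)} {q : (Fin n' → R) →ₗ[K] R}

theorem cof_psi (hφ : Dat u x y M (n + 1) φ) (hψ : ∀ m i, ψ m i = φ m i.succ) :
    Cof x y (LinearMap.range ψ) := by
  intro f
  obtain ⟨N, ⟨m₁, h1⟩, ⟨m₂, h2⟩⟩ := hφ.cof (Fin.cons 0 f)
  refine ⟨N, ⟨m₁, ?_⟩, ⟨m₂, ?_⟩⟩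
  · funext j
    rw [hψ, h1, Pi.smul_apply, Pi.smul_apply, Fin.cons_succ]
  · funext j
    rw [hψ, h2, Pi.smul_apply, Pi.smul_apply, Fin.cons_succ]

theorem smul_mem_ker (h : Ctx K R u x y) (ψ : M →ₗ[K] (Fin n → R)) (m : M) :
    u • m ∈ LinearMap.ker ψ := by
  rw [LinearMap.mem_ker, map_smul, u_smul h]

theorem psi_cof (hφ : Dat u x y M (n + 1) φ) (hψ : ∀ m i, ψ m i = φ m i.succ)
    (g : Fin n → R) : ∃ (N : ℕ) (m₁ m₂ : M), ψ m₁ = x ^ N • g ∧ ψ m₂ = y ^ N • g := by
  obtain ⟨N, ⟨m₁, h1⟩, ⟨m₂, h2⟩⟩ := cof_psi hφ hψ g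
  exact ⟨N, m₁, m₂, h1, h2⟩

/-- The maps `i : R ^ n → R ^ n'` and `q : R ^ n' → R`. -/
theorem exists_i_q (h : Ctx K R u x y)
    (hext : ∀ (A B : Type u) [AddCommGroup A] [Module K A] [AddCommGroup B] [Module K B]
      (α : A →ₗ[K] B), Function.Injective α → Cof x y (LinearMap.range α) →
      ∀ g : A →ₗ[K] R, ∃ g' : B →ₗ[K] R, g' ∘ₗ α = g)
    (hφ : Dat u x y M (n + 1) φ) (hψ : ∀ m i, ψ m i = φ m i.succ)
    (hφ' : Dat u x y (LinearMap.ker ψ) n' φ') (φ₀ : M →ₗ[K] R) :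
    ∃ (i : (Fin n → R) →ₗ[K] (Fin n' → R)) (q : (Fin n' → R) →ₗ[K] R),
      (∀ m (hm : u • m ∈ LinearMap.ker ψ), i (ψ m) = φ' ⟨u • m, hm⟩) ∧
      ∀ m', q (φ' m') = φ₀ m' := by
  have hk : ∀ m : M, LinearMap.lsmul K M u m ∈ LinearMap.ker ψ := fun m => smul_mem_ker h ψ m
  obtain ⟨i, hi⟩ := ext_vec hext ψ (cof_psi hφ hψ)
    (φ' ∘ₗ LinearMap.codRestrict (LinearMap.ker ψ) (LinearMap.lsmul K M u) hk) (by
      intro m hm
      have h1 : LinearMap.codRestrict (LinearMap.ker ψ) (LinearMap.lsmul K M u) hk m =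
          u • (⟨m, hm⟩ : LinearMap.ker ψ) := rfl
      rw [LinearMap.comp_apply, h1, map_smul, u_smul h])
  obtain ⟨q, hq⟩ := ext_one hext φ' hφ'.cof (φ₀ ∘ₗ (LinearMap.ker ψ).subtype) (by
    intro m hm
    obtain ⟨m₁, hm₁⟩ := hφ'.ker m hm
    rw [hm₁, map_smul, u_smul' h])
  exact ⟨i, q, fun m hm => hi m, fun m' => hq m'⟩

/-- `i` is injective. -/
theorem i_inj (h : Ctx K R u x y) (hM : TF u M) (hφ : Dat u x y M (n + 1) φ)
    (hψ : ∀ m i, ψ m i = φ m i.succ) (hφ' : Dat u x y (LinearMap.ker ψ) n' φ')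
    (hi : ∀ m (hm : u • m ∈ LinearMap.ker ψ), i (ψ m) = φ' ⟨u • m, hm⟩)
    (g : Fin n → R) (hg : i g = 0) : g = 0 := by
  obtain ⟨N, m₁, m₂, h1, -⟩ := psi_cof hφ hψ g
  have h2 : i (ψ m₁) = 0 := by rw [h1, map_smul, hg, smul_zero]
  rw [hi m₁ (smul_mem_ker h ψ m₁)] at h2
  obtain ⟨m₃, hm₃⟩ := hφ'.ker _ h2
  have h3 : u • m₁ = u • (m₃ : M) := congrArg Subtype.val hm₃
  have h4 : m₁ = (m₃ : M) := by
    apply sub_eq_zero.1
    apply hM.reg
    rw [smul_sub, h3, sub_self]
  apply x_reg h (N := N)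
  rw [← h1, h4]
  exact m₃.2

/-- `q ∘ i = 0`. -/
theorem q_i (h : Ctx K R u x y) (hφ : Dat u x y M (n + 1) φ)
    (hψ : ∀ m i, ψ m i = φ m i.succ)
    (hi : ∀ m (hm : u • m ∈ LinearMap.ker ψ), i (ψ m) = φ' ⟨u • m, hm⟩)
    (hq : ∀ m', q (φ' m') = φ₀ m') (g : Fin n → R) : q (i g) = 0 := by
  obtain ⟨N, m₁, m₂, h1, -⟩ := psi_cof hφ hψ g
  apply x_reg' h (N := N)
  rw [← map_smul, ← map_smul, ← h1, hi m₁ (smul_mem_ker h ψ m₁), hq]
  exact (map_smul φ₀ u m₁).trans (u_smul' h _)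

theorem phi_eq_zero (hφ₀ : ∀ m, φ₀ m = φ m 0) (hψ : ∀ m i, ψ m i = φ m i.succ) {m : M}
    (h1 : φ₀ m = 0) (h2 : ψ m = 0) : φ m = 0 := by
  funext j
  refine Fin.cases ?_ (fun j => ?_) j
  · rw [← hφ₀, h1, Pi.zero_apply]
  · rw [← hψ, h2, Pi.zero_apply, Pi.zero_apply]

/-- The elements of `ker ψ` killed by `φ₀` are in `u M`. -/
theorem exists_of_phi0 (hφ : Dat u x y M (n + 1) φ) (hφ₀ : ∀ m, φ₀ m = φ m 0)
    (hψ : ∀ m i, ψ m i = φ m i.succ)
    (hi : ∀ m (hm : u • m ∈ LinearMap.ker ψ), i (ψ m) = φ' ⟨u • m, hm⟩)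
    (m' : LinearMap.ker ψ) (h1 : φ₀ m' = 0) : ∃ m : M, (m' : M) = u • m ∧ φ' m' = i (ψ m) := by
  obtain ⟨m, hm⟩ := hφ.ker (m' : M) (phi_eq_zero hφ₀ hψ h1 m'.2)
  refine ⟨m, hm, ?_⟩
  have h2 : u • m ∈ LinearMap.ker ψ := by
    rw [← hm]
    exact m'.2
  rw [hi m h2]
  congr 1
  exact Subtype.ext hm

/-- Exactness at `R ^ n'`. -/
theorem q_exact (h : Ctx K R u x y) (hM : TF u M) (hφ : Dat u x y M (n + 1) φ)
    (hφ₀ : ∀ m, φ₀ m = φ m 0) (hψ : ∀ m i, ψ m i = φ m i.succ)
    (hφ' : Dat u x y (LinearMap.ker ψ) n' φ')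
    (hi : ∀ m (hm : u • m ∈ LinearMap.ker ψ), i (ψ m) = φ' ⟨u • m, hm⟩)
    (hq : ∀ m', q (φ' m') = φ₀ m') (f : Fin n' → R) (hf : q f = 0) : ∃ g, i g = f := by
  obtain ⟨N, ⟨m₁, h1⟩, ⟨m₂, h2⟩⟩ := hφ'.cof f
  have h3 : φ₀ m₁ = 0 := by rw [← hq, h1, map_smul, hf, smul_zero]
  have h4 : φ₀ m₂ = 0 := by rw [← hq, h2, map_smul, hf, smul_zero]
  obtain ⟨n₁, -, h5⟩ := exists_of_phi0 hφ hφ₀ hψ hi m₁ h3
  obtain ⟨n₂, -, h6⟩ := exists_of_phi0 hφ hφ₀ hψ hi m₂ h4
  exact sat_free h i (i_inj h hM hφ hψ hφ' hi) (h1.symm.trans h5) (h2.symm.trans h6)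

/-- The comparison of lengths. -/
theorem colen_eq (h : Ctx K R u x y) (hM : TF u M) (hφ : Dat u x y M (n + 1) φ)
    (hφ₀ : ∀ m, φ₀ m = φ m 0) (hψ : ∀ m i, ψ m i = φ m i.succ)
    (hφ' : Dat u x y (LinearMap.ker ψ) n' φ')
    (hi : ∀ m (hm : u • m ∈ LinearMap.ker ψ), i (ψ m) = φ' ⟨u • m, hm⟩)
    (hq : ∀ m', q (φ' m') = φ₀ m') :
    colen φ = colen φ' + Module.length K (R ⧸ LinearMap.range q) := by
  set I : Submodule K R := LinearMap.range (φ₀ ∘ₗ (LinearMap.ker ψ).subtype) with hI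
  have hIq : I ≤ LinearMap.range q := by
    rintro _ ⟨m', rfl⟩
    exact ⟨φ' m', hq m'⟩
  have e1 : colen φ = Module.length K (R ⧸ I) +
      Module.length K ((Fin n → R) ⧸ LinearMap.range ψ) := by
    have h1 := length_quot_exact (LinearMap.single K (fun _ : Fin (n + 1) => R) 0)
      (LinearMap.funLeft K R (Fin.succ (n := n))) (by
        intro f
        refine ⟨Fin.cons 0 f, ?_⟩
        funext j
        rw [LinearMap.funLeft_apply, Fin.cons_succ]) (by
        intro b hb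
        refine ⟨b 0, ?_⟩
        funext j
        refine Fin.cases ?_ (fun j => ?_) j
        · rw [LinearMap.single_apply, Pi.single_eq_same]
        · rw [LinearMap.single_apply, Pi.single_eq_of_ne (Fin.succ_ne_zero j)]
          exact (congrFun hb j).symm) (by
        intro a
        funext j
        rw [LinearMap.funLeft_apply, LinearMap.single_apply,
          Pi.single_eq_of_ne (Fin.succ_ne_zero j), Pi.zero_apply]) (LinearMap.range φ)
    have h2 : (LinearMap.range φ).comap (LinearMap.single K (fun _ : Fin (n + 1) => R) 0) = I := by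
      ext r
      rw [Submodule.mem_comap, LinearMap.single_apply]
      constructor
      · rintro ⟨m, hm⟩
        have hm2 : m ∈ LinearMap.ker ψ := by
          rw [LinearMap.mem_ker]
          funext j
          rw [hψ, hm, Pi.single_eq_of_ne (Fin.succ_ne_zero j), Pi.zero_apply]
        refine ⟨⟨m, hm2⟩, ?_⟩
        rw [LinearMap.comp_apply, Submodule.subtype_apply, hφ₀, hm, Pi.single_eq_same]
      · rintro ⟨m, hm⟩
        refine ⟨m, ?_⟩
        rw [LinearMap.comp_apply, Submodule.subtype_apply] at hm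
        funext j
        refine Fin.cases ?_ (fun j => ?_) j
        · rw [← hφ₀, hm, Pi.single_eq_same]
        · rw [← hψ, Pi.single_eq_of_ne (Fin.succ_ne_zero j)]
          exact congrFun m.2 j
    have h3 : (LinearMap.range φ).map (LinearMap.funLeft K R (Fin.succ (n := n))) =
        LinearMap.range ψ := by
      rw [← LinearMap.range_comp]
      congr 1
      ext m j
      rw [LinearMap.comp_apply, LinearMap.funLeft_apply, hψ]
    rw [h2, h3] at h1
    exact h1
  have e2 : colen φ' = Module.length K ((Fin n → R) ⧸ LinearMap.range ψ) +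
      Module.length K ((LinearMap.range q) ⧸ I.comap (LinearMap.range q).subtype) := by
    have h1 := length_quot_exact i q.rangeRestrict (LinearMap.surjective_rangeRestrict q) (by
        intro f hf
        exact q_exact h hM hφ hφ₀ hψ hφ' hi hq f (congrArg Subtype.val hf)) (by
        intro g
        exact Subtype.ext (q_i h hφ hψ hi hq g)) (LinearMap.range φ')
    have h2 : (LinearMap.range φ').comap i = LinearMap.range ψ := by
      ext g
      rw [Submodule.mem_comap]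
      constructor
      · rintro ⟨m', hm'⟩
        have h5 : φ₀ m' = 0 := by rw [← hq, hm', q_i h hφ hψ hi hq]
        obtain ⟨m, -, h6⟩ := exists_of_phi0 hφ hφ₀ hψ hi m' h5
        refine ⟨m, ?_⟩
        have h7 : i (ψ m - g) = 0 := by rw [map_sub, ← h6, hm', sub_self]
        exact sub_eq_zero.1 (i_inj h hM hφ hψ hφ' hi _ h7)
      · rintro ⟨m, rfl⟩
        rw [hi m (smul_mem_ker h ψ m)]
        exact ⟨_, rfl⟩
    have h3 : (LinearMap.range φ').map q.rangeRestrict =
        I.comap (LinearMap.range q).subtype := by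
      ext r
      constructor
      · rintro ⟨_, ⟨m', rfl⟩, rfl⟩
        exact ⟨m', (hq m').symm⟩
      · rintro ⟨m', hm'⟩
        refine ⟨φ' m', ⟨m', rfl⟩, ?_⟩
        apply Subtype.ext
        exact (hq m').trans hm'
    rw [h2, h3] at h1
    exact h1
  rw [e1, e2, length_quot_chain hIq, add_comm, add_assoc]

end main

end Pool.Agent.QU74
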